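import Mathlib
import Pool.Agent.H964.LF.Stm

set_option autoImplicit false

namespace Pool.Agent.H284.LF

open MeasureTheory Pool.Agent.H964.LF
open scoped ENNReal

noncomputable section

/-- plain log-concavity of the length of the interval at one vertex -/
lemma len_mid {d n : ℕ} (hd : 1 ≤ d) (x y : Tor d n → ℝ) (v : Tor d n) :
    Len x v * Len y v ≤ Len (mid x y) v ^ 2 := by
  have : Nonempty (Fin d × Bool) := ⟨(⟨0, hd⟩, true)⟩
  have hbx : BddAbove (Set.range fun a : Fin d × Bool => x (nb v a)) := Set.Finite.bddAbove (Set.finite_range _)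
  have hby : BddAbove (Set.range fun a : Fin d × Bool => y (nb v a)) := Set.Finite.bddAbove (Set.finite_range _)
  have hcx : BddBelow (Set.range fun a : Fin d × Bool => x (nb v a)) := Set.Finite.bddBelow (Set.finite_range _)
  have hcy : BddBelow (Set.range fun a : Fin d × Bool => y (nb v a)) := Set.Finite.bddBelow (Set.finite_range _)
  have h1 : (⨆ a : Fin d × Bool, (x (nb v a) + y (nb v a)) / 2) ≤
      ((⨆ a : Fin d × Bool, x (nb v a)) + ⨆ a : Fin d × Bool, y (nb v a)) / 2 := by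
    apply ciSup_le
    intro a
    have e1 := le_ciSup hbx a
    have e2 := le_ciSup hby a
    linarith
  have h2 : ((⨅ a : Fin d × Bool, x (nb v a)) + ⨅ a : Fin d × Bool, y (nb v a)) / 2 ≤
      (⨅ a : Fin d × Bool, (x (nb v a) + y (nb v a)) / 2) := by
    apply le_ciInf
    intro a
    have e1 := ciInf_le hcx a
    have e2 := ciInf_le hcy a
    linarith
  unfold Len
  have key : ∀ A B C : ℝ, (A + B) / 2 ≤ C → max 0 A * max 0 B ≤ max 0 C ^ 2 := by
    intro A B C h
    rcases le_or_gt A 0 with hA | hA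
    · rw [max_eq_left hA]; simp only [zero_mul]; positivity
    · rcases le_or_gt B 0 with hB | hB
      · rw [max_eq_left hB]; simp only [mul_zero]; positivity
      · rw [max_eq_right hA.le, max_eq_right hB.le, max_eq_right (by linarith)]
        nlinarith [sq_nonneg (A - B), sq_nonneg (C - (A + B) / 2)]
  apply key
  linarith

/-- the product inequality -/
lemma prod_gain {ι κ : Type} [DecidableEq ι] (S : Finset ι) (T : Finset κ) (m : κ → ι)
    (hm : ∀ t ∈ T, m t ∈ S) (hinj : Set.InjOn m T) (A B : ι → ℝ≥0∞) (E : κ → ℝ≥0∞)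
    (h1 : ∀ v ∈ S, A v ≤ B v) (h2 : ∀ t ∈ T, A (m t) * E t ≤ B (m t)) :
    (∏ v ∈ S, A v) * ∏ t ∈ T, E t ≤ ∏ v ∈ S, B v := by
  have hsub : T.image m ⊆ S := by
    intro v hv
    rw [Finset.mem_image] at hv
    obtain ⟨t, ht, rfl⟩ := hv
    exact hm t ht
  have e1 : ∀ F : ι → ℝ≥0∞, ∏ v ∈ S, F v = (∏ v ∈ S \ T.image m, F v) * ∏ t ∈ T, F (m t) := by
    intro F
    rw [← Finset.prod_sdiff hsub, Finset.prod_image hinj]
  rw [e1 A, e1 B, mul_assoc, ← Finset.prod_mul_distrib]
  gcongr with v hv t ht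
  · exact h1 v (Finset.mem_sdiff.mp hv).1
  · exact h2 t ht

/-- points on a coarse edge -/
def pt {d n : ℕ} (τ : Tor d n) (K : ℕ) (k : Site d) (i : Fin d) (s : ℕ) : Tor d n :=
  ctr τ K k + Pi.single i ((2 * s : ℕ) : ZMod (2 * n + 2))

lemma nb_true {d n : ℕ} (τ : Tor d n) (K : ℕ) (k : Site d) (i : Fin d) (s : ℕ) :
    nb (mv τ K k i s) (i, true) = pt τ K k i (s + 1) := by
  unfold nb mv pt
  simp only [if_true, add_assoc]
  rw [← Pi.single_add]
  congr 2
  push_cast
  ring

lemma nb_false {d n : ℕ} (τ : Tor d n) (K : ℕ) (k : Site d) (i : Fin d) (s : ℕ) :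
    nb (mv τ K k i s) (i, false) = pt τ K k i s := by
  unfold nb mv pt
  simp only [Bool.false_eq_true, if_false, add_sub_assoc]
  rw [← Pi.single_sub]
  congr 2
  push_cast
  ring

lemma pt_zero {d n : ℕ} (τ : Tor d n) (K : ℕ) (k : Site d) (i : Fin d) :
    pt τ K k i 0 = ctr τ K k := by
  unfold pt
  simp

lemma pt_end {d n : ℕ} (τ : Tor d n) (K : ℕ) (hK : 2 ∣ K) (k : Site d) (i : Fin d) :
    pt τ K k i (K / 2) = ctr τ K (sx k i) := by
  unfold pt
  rw [Nat.mul_div_cancel' hK]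
  funext j
  unfold ctr sx
  simp only [Pi.add_apply]
  by_cases h : j = i
  · subst h
    simp only [Pi.single_eq_same]
    push_cast
    ring
  · simp only [Pi.single_eq_of_ne h, add_zero]

lemma par_mv {d n : ℕ} (τ : Tor d n) (K : ℕ) (hτ : par τ = 1) (hK : 2 ∣ K) (k : Site d)
    (i : Fin d) (s : ℕ) : par (mv τ K k i s) = 0 := by
  unfold par mv ctr
  unfold par at hτ
  simp only [Pi.add_apply, map_add, Finset.sum_add_distrib]
  rw [hτ]
  have e1 : ∀ j : Fin d, (ZMod.castHom (show 2 ∣ 2 * n + 2 from ⟨n + 1, by ring⟩) (ZMod 2))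
      ((K * k j : ℕ) : ZMod (2 * n + 2)) = 0 := by
    intro j
    rw [map_natCast]
    rw [ZMod.natCast_eq_zero_iff]
    exact Dvd.dvd.mul_right hK _
  rw [Finset.sum_congr rfl (fun j _ => e1 j)]
  have e2 : ∑ j : Fin d, (ZMod.castHom (show 2 ∣ 2 * n + 2 from ⟨n + 1, by ring⟩) (ZMod 2))
      ((Pi.single i ((2 * s + 1 : ℕ) : ZMod (2 * n + 2)) : Tor d n) j) = 1 := by
    rw [Finset.sum_eq_single i]
    · rw [Pi.single_eq_same, map_natCast]
      push_cast
      have h2 : (2 : ZMod 2) = 0 := by decide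
      rw [h2]; simp
    · intro j _ hj
      rw [Pi.single_eq_of_ne hj, map_zero]
    · intro h
      exact absurd (Finset.mem_univ i) h
  rw [e2, Finset.sum_const_zero]
  decide

lemma mv_inj {d n : ℕ} (τ : Tor d n) (K J R : ℕ) (hC : Conf τ K J R)
    (k k' : Site d) (i i' : Fin d) (s s' : ℕ) (hk : k ∈ Grid d J) (hk' : k' ∈ Grid d J)
    (hs : s < K / 2) (hs' : s' < K / 2)
    (h : mv τ K k i s = mv τ K k' i' s') : k = k' ∧ i = i' ∧ s = s' := by
  have hK4 := hC.hK
  obtain ⟨K4, hK4'⟩ := hK4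
  have hK0 := hC.hK0
  have hsz := hC.hs
  have hs2 : 2 * s + 1 < K := by omega
  have hs2' : 2 * s' + 1 < K := by omega
  unfold Grid at hk hk'
  rw [Fintype.mem_piFinset] at hk hk'
  have nat_eq : ∀ j : Fin d, K * k j + (if j = i then 2 * s + 1 else 0) =
      K * k' j + (if j = i' then 2 * s' + 1 else 0) := by
    intro j
    have hj := congrFun h j
    unfold mv ctr at hj
    simp only [Pi.add_apply] at hj
    have e1 : (Pi.single i ((2 * s + 1 : ℕ) : ZMod (2 * n + 2)) : Tor d n) j =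
        ((if j = i then 2 * s + 1 else 0 : ℕ) : ZMod (2 * n + 2)) := by
      by_cases hji : j = i
      · subst hji; simp
      · simp [hji]
    have e2 : (Pi.single i' ((2 * s' + 1 : ℕ) : ZMod (2 * n + 2)) : Tor d n) j =
        ((if j = i' then 2 * s' + 1 else 0 : ℕ) : ZMod (2 * n + 2)) := by
      by_cases hji : j = i'
      · subst hji; simp
      · simp [hji]
    rw [e1, e2, add_assoc, add_assoc] at hj
    have hj2 := add_left_cancel hj
    rw [← Nat.cast_add, ← Nat.cast_add] at hj2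
    rw [ZMod.natCast_eq_natCast_iff'] at hj2
    have b1 : K * k j + (if j = i then 2 * s + 1 else 0) < 2 * n + 2 := by
      have h1 := Finset.mem_range.mp (hk j)
      have h2 : K * k j + K ≤ K * 2 ^ J := by
        have : K * (k j + 1) ≤ K * 2 ^ J := Nat.mul_le_mul_left K h1
        linarith
      split_ifs <;> omega
    have b2 : K * k' j + (if j = i' then 2 * s' + 1 else 0) < 2 * n + 2 := by
      have h1 := Finset.mem_range.mp (hk' j)
      have h2 : K * k' j + K ≤ K * 2 ^ J := by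
        have : K * (k' j + 1) ≤ K * 2 ^ J := Nat.mul_le_mul_left K h1
        linarith
      split_ifs <;> omega
    rwa [Nat.mod_eq_of_lt b1, Nat.mod_eq_of_lt b2] at hj2
  have modK : ∀ j : Fin d, k j = k' j ∧ (if j = i then 2 * s + 1 else 0) =
      (if j = i' then 2 * s' + 1 else 0) := by
    intro j
    have h1 := nat_eq j
    have c1 : (if j = i then 2 * s + 1 else 0) < K := by split_ifs <;> omega
    have c2 : (if j = i' then 2 * s' + 1 else 0) < K := by split_ifs <;> omega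
    have hm := congrArg (fun t => t % K) h1
    simp only [Nat.mul_add_mod] at hm
    rw [Nat.mod_eq_of_lt c1, Nat.mod_eq_of_lt c2] at hm
    refine ⟨?_, hm⟩
    rw [hm] at h1
    exact Nat.eq_of_mul_eq_mul_left hK0 (Nat.add_right_cancel h1)
  have hi := (modK i).2
  simp only [if_true] at hi
  by_cases hii : i = i'
  · subst hii
    simp only [if_true] at hi
    exact ⟨funext fun j => (modK j).1, rfl, by omega⟩
  · rw [if_neg hii] at hi
    omega

lemma cs_sum (w : ℕ → ℝ) (m : ℕ) :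
    (w m - w 0) ^ 2 ≤ m * ∑ s ∈ Finset.range m, (w (s + 1) - w s) ^ 2 := by
  have h := sq_sum_le_card_mul_sum_sq (s := Finset.range m) (f := fun s => w (s + 1) - w s)
  rw [Finset.sum_range_sub, Finset.card_range] at h
  exact h

theorem t_GAIN : S_GV → S_BAS → S_GAIN := by
  intro hGV _ d n p τ K J R x y hd hC
  classical
  have hK4 : 4 ∣ K := hC.hK
  have hK2 : 2 ∣ K := Dvd.dvd.trans (by norm_num) hK4
  have hK0 := hC.hK0
  -- the gain exponent at a triple
  set e : Site d × Fin d × ℕ → ℝ := fun t =>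
    ((x (pt τ K t.1 t.2.1 (t.2.2 + 1)) - y (pt τ K t.1 t.2.1 (t.2.2 + 1))) -
      (x (pt τ K t.1 t.2.1 t.2.2) - y (pt τ K t.1 t.2.1 t.2.2))) ^ 2 / 768 with he
  set T : Finset (Site d × Fin d × ℕ) :=
    (Grid d J ×ˢ (Finset.univ : Finset (Fin d)) ×ˢ Finset.range (K / 2)).filter
      (fun t => t.1 t.2.1 + 1 < 2 ^ J ∧ x ∈ Nev τ K t.1 t.2.1) with hT
  have hreal : (2 * ∑ k ∈ Grid d J, ∑ i : Fin d,
      if k i + 1 < 2 ^ J ∧ x ∈ Nev τ K k i then
        ((x (ctr τ K (sx k i)) - y (ctr τ K (sx k i))) - (x (ctr τ K k) - y (ctr τ K k))) ^ 2 /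
          (768 * K) else 0) ≤ ∑ t ∈ T, e t := by
    rw [hT, Finset.sum_filter, Finset.sum_product, Finset.mul_sum]
    apply Finset.sum_le_sum
    intro k hk
    rw [Finset.sum_product, Finset.mul_sum]
    apply Finset.sum_le_sum
    intro i _
    by_cases hc : k i + 1 < 2 ^ J ∧ x ∈ Nev τ K k i
    · simp only [if_pos hc]
      have hcs := cs_sum (fun s => x (pt τ K k i s) - y (pt τ K k i s)) (K / 2)
      simp only [pt_zero, pt_end τ K hK2] at hcs
      rw [he]
      simp only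
      rw [← Finset.sum_div]
      have hKr : ((K / 2 : ℕ) : ℝ) = (K : ℝ) / 2 := Nat.cast_div hK2 (by norm_num)
      rw [hKr] at hcs
      have hKp : (0 : ℝ) < K := by exact_mod_cast hK0
      rw [← mul_div_assoc, div_le_div_iff₀ (by positivity) (by norm_num)]
      nlinarith [hcs]
    · simp only [if_neg hc]
      simp
  have hexp : ENNReal.ofReal (Real.exp (2 * ∑ k ∈ Grid d J, ∑ i : Fin d,
      if k i + 1 < 2 ^ J ∧ x ∈ Nev τ K k i then
        ((x (ctr τ K (sx k i)) - y (ctr τ K (sx k i))) - (x (ctr τ K k) - y (ctr τ K k))) ^ 2 /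
          (768 * K) else 0)) ≤ ∏ t ∈ T, ENNReal.ofReal (Real.exp (e t)) := by
    rw [← ENNReal.ofReal_prod_of_nonneg (fun t _ => (Real.exp_pos _).le), ← Real.exp_sum]
    exact ENNReal.ofReal_le_ofReal (Real.exp_le_exp.mpr hreal)
  -- the pin
  have hpin : (if |x p| ≤ 1 / 2 then (1 : ℝ≥0∞) else 0) * (if |y p| ≤ 1 / 2 then (1 : ℝ≥0∞) else 0) ≤
      (if |mid x y p| ≤ 1 / 2 then (1 : ℝ≥0∞) else 0) ^ 2 := by
    by_cases h1 : |x p| ≤ 1 / 2
    · by_cases h2 : |y p| ≤ 1 / 2
      · have h3 : |mid x y p| ≤ 1 / 2 := by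
          rw [abs_le] at h1 h2 ⊢
          simp only [mid]
          constructor <;> linarith [h1.1, h1.2, h2.1, h2.2]
        rw [if_pos h1, if_pos h2, if_pos h3]
        simp
      · rw [if_neg h2]; simp
    · rw [if_neg h1]; simp
  -- the product
  have hprod : (∏ v ∈ ev d n, ENNReal.ofReal (Len x v) * ENNReal.ofReal (Len y v)) *
      ∏ t ∈ T, ENNReal.ofReal (Real.exp (e t)) ≤
      ∏ v ∈ ev d n, ENNReal.ofReal (Len (mid x y) v) ^ 2 := by
    have hnn : ∀ (z : Tor d n → ℝ) (v : Tor d n), 0 ≤ Len z v := by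
      intro z v
      unfold Len
      exact le_max_left _ _
    apply prod_gain (ev d n) T (fun t => mv τ K t.1 t.2.1 t.2.2)
    · intro t _
      unfold ev
      rw [Finset.mem_filter]
      exact ⟨Finset.mem_univ _, par_mv τ K hC.hτ hK2 _ _ _⟩
    · intro t ht t' ht' hh
      simp only [hT, Finset.coe_filter, Set.mem_ofPred_eq, Finset.mem_product, Finset.mem_range] at ht ht'
      obtain ⟨a1, a2, a3⟩ := mv_inj τ K J R hC t.1 t'.1 t.2.1 t'.2.1 t.2.2 t'.2.2
        ht.1.1 ht'.1.1 ht.1.2.2 ht'.1.2.2 hh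
      exact Prod.ext a1 (Prod.ext a2 a3)
    · intro v _
      rw [← ENNReal.ofReal_mul (hnn x v), ← ENNReal.ofReal_pow (hnn _ v)]
      exact ENNReal.ofReal_le_ofReal (len_mid hd x y v)
    · intro t ht
      rw [hT, Finset.mem_filter, Finset.mem_product, Finset.mem_product, Finset.mem_range] at ht
      obtain ⟨⟨_, _, hs⟩, _, hN⟩ := ht
      rw [← ENNReal.ofReal_mul (hnn x _), ← ENNReal.ofReal_mul (mul_nonneg (hnn x _) (hnn y _)),
        ← ENNReal.ofReal_pow (hnn _ _)]
      apply ENNReal.ofReal_le_ofReal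
      have hne : ((t.2.1, true) : Fin d × Bool) ≠ (t.2.1, false) := by
        intro h
        have := congrArg Prod.snd h
        simp at this
      rcases hN t.2.2 hs with hE | hE
      · have hg := hGV (Fin d × Bool) (fun a => x (nb (mv τ K t.1 t.2.1 t.2.2) a))
          (fun a => y (nb (mv τ K t.1 t.2.1 t.2.2) a)) (t.2.1, true) (t.2.1, false) hne hE.1 hE.2
        simp only [nb_true, nb_false] at hg
        exact hg
      · have hg := hGV (Fin d × Bool) (fun a => x (nb (mv τ K t.1 t.2.1 t.2.2) a))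
          (fun a => y (nb (mv τ K t.1 t.2.1 t.2.2) a)) (t.2.1, false) (t.2.1, true) hne.symm hE.1 hE.2
        simp only [nb_true, nb_false] at hg
        have hsq : e t = ((x (pt τ K t.1 t.2.1 t.2.2) - y (pt τ K t.1 t.2.1 t.2.2)) -
            (x (pt τ K t.1 t.2.1 (t.2.2 + 1)) - y (pt τ K t.1 t.2.1 (t.2.2 + 1)))) ^ 2 / 768 := by
          rw [he]
          simp only
          ring
        rw [hsq]
        exact hg
  calc FF p x * FF p y * ENNReal.ofReal (Real.exp (2 * ∑ k ∈ Grid d J, ∑ i : Fin d,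
      if k i + 1 < 2 ^ J ∧ x ∈ Nev τ K k i then
        ((x (ctr τ K (sx k i)) - y (ctr τ K (sx k i))) - (x (ctr τ K k) - y (ctr τ K k))) ^ 2 /
          (768 * K) else 0))
      ≤ FF p x * FF p y * ∏ t ∈ T, ENNReal.ofReal (Real.exp (e t)) := by gcongr
    _ = ((∏ v ∈ ev d n, ENNReal.ofReal (Len x v) * ENNReal.ofReal (Len y v)) *
          ∏ t ∈ T, ENNReal.ofReal (Real.exp (e t))) *
        ((if |x p| ≤ 1 / 2 then (1 : ℝ≥0∞) else 0) * (if |y p| ≤ 1 / 2 then (1 : ℝ≥0∞) else 0)) := by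
        unfold FF
        rw [Finset.prod_mul_distrib]
        ring
    _ ≤ (∏ v ∈ ev d n, ENNReal.ofReal (Len (mid x y) v) ^ 2) *
        (if |mid x y p| ≤ 1 / 2 then (1 : ℝ≥0∞) else 0) ^ 2 := mul_le_mul' hprod hpin
    _ = FF p (mid x y) ^ 2 := by
        unfold FF
        rw [Finset.prod_pow, mul_pow]

end

end Pool.Agent.H284.LF
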